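import Pool.Agent.H37.CTL.Stmts

set_option autoImplicit false

namespace Pool.CND

open Finset Polynomial

/-- conjugation by `h` -/
noncomputable def t36conj {F : Type} [Field F] (h : Matrix (Fin 3) (Fin 3) F) (hh : h.det ≠ 0) :
    Matrix.SpecialLinearGroup (Fin 3) F →* Matrix.SpecialLinearGroup (Fin 3) F where
  toFun g := ⟨h * g.1 * h⁻¹, by
    rw [Matrix.det_mul, Matrix.det_mul, g.2, Matrix.det_nonsing_inv, mul_one,
      Ring.mul_inverse_cancel _ (isUnit_iff_ne_zero.2 hh)]⟩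
  map_one' := by
    apply Subtype.ext
    show h * (1 : Matrix (Fin 3) (Fin 3) F) * h⁻¹ = 1
    rw [Matrix.mul_one, Matrix.mul_nonsing_inv _ (isUnit_iff_ne_zero.2 hh)]
  map_mul' a b := by
    apply Subtype.ext
    show h * (a.1 * b.1) * h⁻¹ = (h * a.1 * h⁻¹) * (h * b.1 * h⁻¹)
    have e : h⁻¹ * h = 1 := Matrix.nonsing_inv_mul _ (isUnit_iff_ne_zero.2 hh)
    calc h * (a.1 * b.1) * h⁻¹ = h * a.1 * 1 * (b.1 * h⁻¹) := by
          simp only [Matrix.mul_assoc, Matrix.mul_one, Matrix.one_mul]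
      _ = h * a.1 * (h⁻¹ * h) * (b.1 * h⁻¹) := by rw [e]
      _ = _ := by simp only [Matrix.mul_assoc]

theorem t36conj_surj {F : Type} [Field F] (h : Matrix (Fin 3) (Fin 3) F) (hh : h.det ≠ 0)
    (g : Matrix.SpecialLinearGroup (Fin 3) F) : ∃ g', t36conj h hh g' = g := by
  have e : h * h⁻¹ = 1 := Matrix.mul_nonsing_inv _ (isUnit_iff_ne_zero.2 hh)
  refine ⟨⟨h⁻¹ * g.1 * h, ?_⟩, ?_⟩
  · rw [Matrix.det_mul, Matrix.det_mul, g.2, Matrix.det_nonsing_inv, mul_one,
      Ring.inverse_mul_cancel _ (isUnit_iff_ne_zero.2 hh)]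
  · apply Subtype.ext
    show h * (h⁻¹ * g.1 * h) * h⁻¹ = g.1
    calc h * (h⁻¹ * g.1 * h) * h⁻¹ = (h * h⁻¹) * g.1 * (h * h⁻¹) := by
          simp only [Matrix.mul_assoc]
      _ = g.1 := by rw [e, Matrix.one_mul, Matrix.mul_one]

theorem t36conj_inj {F : Type} [Field F] (h : Matrix (Fin 3) (Fin 3) F) (hh : h.det ≠ 0)
    (g : Matrix.SpecialLinearGroup (Fin 3) F) (hg : t36conj h hh g = 1) : g = 1 := by
  have e : h⁻¹ * h = 1 := Matrix.nonsing_inv_mul _ (isUnit_iff_ne_zero.2 hh)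
  have h1 : h * g.1 * h⁻¹ = 1 := congrArg Subtype.val hg
  apply Subtype.ext
  show g.1 = 1
  calc g.1 = (h⁻¹ * h) * g.1 * (h⁻¹ * h) := by rw [e, Matrix.one_mul, Matrix.mul_one]
    _ = h⁻¹ * (h * g.1 * h⁻¹) * h := by simp only [Matrix.mul_assoc]
    _ = 1 := by rw [h1, Matrix.mul_one, e]

theorem t36sum {F L : Type} [Field F] [Field L] (κ : F →+* L) (A B : Matrix (Fin 3) (Fin 3) F)
    (X : Fin 3 → L) (i : Fin 3) :
    ∑ j, κ (B j i) * ∑ l, κ (A l j) * X l = ∑ l, κ ((A * B) l i) * X l := by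
  simp only [Matrix.mul_apply, map_sum, map_mul, Finset.sum_mul, Finset.mul_sum]
  rw [Finset.sum_comm]
  refine Finset.sum_congr rfl fun l _ => Finset.sum_congr rfl fun j _ => ?_
  ring

theorem t36_thm : S_T36 := by
  intro p k F L _ _ _ _ _ f q a b t X G₀ ρ h hp hch hf hq hF hS hC hh
  haveI : Fact p.Prime := ⟨hp⟩
  haveI : CharP L p := charP_of_injective_algebraMap (algebraMap k L).injective p
  haveI : Finite F := Nat.finite_of_card_ne_zero (by rw [hF, hq]; exact pow_ne_zero _ hp.ne_zero)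
  haveI : Fintype F := Fintype.ofFinite F
  have hFq : Fintype.card F = q := by rw [← Nat.card_eq_fintype_card, hF]
  set κ : F →+* L := (algebraMap k L).comp (algebraMap F k) with hκ
  have hcst : ∀ c : F, cst k F L c = κ c := fun c => rfl
  have hpow : ∀ (c : Fin 3 → F) (m : ℕ), (∑ j, κ (c j) * X j) ^ q ^ m =
      ∑ j, κ (c j) * X j ^ q ^ m := by
    intro c m
    have e1 : q ^ m = p ^ (f * m) := by rw [hq, pow_mul]
    rw [e1, sum_pow_char_pow]
    refine Finset.sum_congr rfl fun j _ => ?_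
    rw [mul_pow, ← map_pow, ← e1, ← hFq, FiniteField.pow_card_pow]
  have hrel : ∀ c : Fin 3 → F, (∑ j, κ (c j) * X j) ^ q ^ 3 +
      aeval t a * (∑ j, κ (c j) * X j) ^ q ^ 2 + aeval t b * (∑ j, κ (c j) * X j) ^ q +
      (∑ j, κ (c j) * X j) = 0 := by
    intro c
    have h1 := hpow c 1
    rw [pow_one] at h1
    rw [hpow, hpow, h1]
    have h2 : ∀ j, κ (c j) * X j ^ q ^ 3 + aeval t a * (κ (c j) * X j ^ q ^ 2) +
        aeval t b * (κ (c j) * X j ^ q) + κ (c j) * X j = 0 := by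
      intro j
      have h3 := hS.rel j
      calc _ = κ (c j) * (X j ^ q ^ 3 + aeval t a * X j ^ q ^ 2 + aeval t b * X j ^ q + X j) := by
            ring
        _ = 0 := by rw [h3, mul_zero]
    rw [Finset.mul_sum, Finset.mul_sum, ← Finset.sum_add_distrib, ← Finset.sum_add_distrib,
      ← Finset.sum_add_distrib]
    exact Finset.sum_eq_zero fun j _ => h2 j
  set G₁ := G₀.comap (t36conj h hh) with hG₁
  let φ : G₁ →* G₀ := (t36conj h hh).subgroupComap G₀
  refine ⟨G₁, ρ.comp φ, ⟨?_, ?_, hS.tr⟩, ⟨?_, ?_⟩⟩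
  · intro i
    exact hrel fun j => h j i
  · intro c hc
    have h1 : ∑ i, κ (c i) * ∑ j, κ (h j i) * X j = ∑ j, κ (h.mulVec c j) * X j := by
      simp only [Matrix.mulVec, dotProduct, map_sum, map_mul, Finset.sum_mul, Finset.mul_sum]
      rw [Finset.sum_comm]
      refine Finset.sum_congr rfl fun l _ => Finset.sum_congr rfl fun j _ => ?_
      ring
    have h2 : h.mulVec c = 0 := hS.ind _ (h1 ▸ hc)
    by_contra hne
    exact hh (Matrix.exists_mulVec_eq_zero_iff.1 ⟨c, hne, h2⟩)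
  · intro g i
    have hm : (φ g).1.1 = h * g.1.1 * h⁻¹ := rfl
    have e : h⁻¹ * h = 1 := Matrix.nonsing_inv_mul _ (isUnit_iff_ne_zero.2 hh)
    have hm2 : (φ g).1.1 * h = h * g.1.1 := by
      rw [hm, Matrix.mul_assoc, e, Matrix.mul_one]
    show ρ (φ g) (∑ j, κ (h j i) * X j) = ∑ j, κ (g.1.1 j i) * ∑ l, κ (h l j) * X l
    rw [t36sum κ h g.1.1 X i, ← hm2, ← t36sum κ (φ g).1.1 h X i, map_sum]
    refine Finset.sum_congr rfl fun j _ => ?_
    rw [map_mul, hC.act (φ g) j]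
    congr 1
    exact (ρ (φ g)).commutes _
  · have hsurj : ∀ g₀ : G₀, ∃ g : G₁, φ g = g₀ := by
      intro g₀
      obtain ⟨g', hg'⟩ := t36conj_surj h hh g₀.1
      refine ⟨⟨g', ?_⟩, ?_⟩
      · rw [hG₁, Subgroup.mem_comap, hg']
        exact g₀.2
      · exact Subtype.ext hg'
    have hinj : ∀ g : G₁, φ g = 1 → g = 1 := by
      intro g hg
      apply Subtype.ext
      exact t36conj_inj h hh g.1 (congrArg Subtype.val hg)
    refine ⟨?_, hC.cov.trans, ?_, ?_⟩
    · rw [injective_iff_map_eq_one]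
      intro g hg
      apply hinj
      apply hC.cov.inj
      rw [map_one]
      exact hg
    · intro x
      rw [← hC.cov.fixed x]
      constructor
      · intro hx g₀
        obtain ⟨g, rfl⟩ := hsurj g₀
        exact hx g
      · intro hx g
        exact hx (φ g)
    · intro P hP g hg
      exact hinj g (hC.cov.unram P hP (φ g) hg)

end Pool.CND
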